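import Pool.Agent.W394.BQN.Stm2

set_option autoImplicit false

open Polynomial IsLocalRing

noncomputable section

namespace Pool.Agent.W983.BQN

open BQ Pool.Agent.W394.BQN

/-- localisation of a quotient by a principal ideal -/
theorem loc_quot {A B : Type} [CommRing A] [CommRing B] (ρ : A →+* B)
    (hs : Function.Surjective ρ) (g : A) (hk : ∀ a, ρ a = 0 ↔ g ∣ a) (P : Ideal B) [P.IsPrime]
    (P0 : Ideal A) [P0.IsPrime] (hP : P0 = P.comap ρ) :
    ∃ f : Localization.AtPrime P0 →+* Localization.AtPrime P, Function.Surjective f ∧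
      f (algebraMap _ _ g) = 0 ∧ ∀ z, f z = 0 → algebraMap A (Localization.AtPrime P0) g ∣ z := by
  have hmem : ∀ s, s ∈ P0.primeCompl ↔ ρ s ∈ P.primeCompl := by
    intro s
    show s ∉ P0 ↔ ρ s ∉ P
    rw [← Ideal.mem_comap, hP]
  refine ⟨Localization.localRingHom P0 P ρ hP, ?_, ?_, ?_⟩
  · intro z
    obtain ⟨⟨a, s⟩, hz⟩ := IsLocalization.mk'_surjective P.primeCompl z
    obtain ⟨a', rfl⟩ := hs a
    obtain ⟨s', hs'⟩ := hs s
    have hs'' : s' ∈ P0.primeCompl := (hmem s').2 (by rw [hs']; exact s.2)
    refine ⟨IsLocalization.mk' _ a' ⟨s', hs''⟩, ?_⟩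
    rw [Localization.localRingHom_mk', ← hz]
    congr 1
    exact Subtype.ext hs'
  · rw [Localization.localRingHom_to_map, (hk g).2 dvd_rfl, map_zero]
  · intro z hz
    obtain ⟨⟨b, s⟩, rfl⟩ := IsLocalization.mk'_surjective P0.primeCompl z
    simp only at hz ⊢
    rw [Localization.localRingHom_mk', IsLocalization.mk'_eq_zero_iff] at hz
    obtain ⟨m, hm⟩ := hz
    obtain ⟨m', hm'⟩ := hs m
    have hm'' : m' ∈ P0.primeCompl := (hmem m').2 (by rw [hm']; exact m.2)
    have h1 : ρ (m' * b) = 0 := by rw [map_mul, hm']; exact hm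
    obtain ⟨c, hc⟩ := (hk _).1 h1
    refine ⟨IsLocalization.mk' _ c (⟨m', hm''⟩ * s), ?_⟩
    rw [IsLocalization.mul_mk'_eq_mk'_of_mul, ← hc]
    rw [IsLocalization.mk'_eq_iff_eq]
    congr 1
    simp only [Submonoid.coe_mul]
    ring

theorem comap_max {R S : Type} [CommRing R] [CommRing S] [IsLocalRing R] [IsLocalRing S]
    (f : R →+* S) (hf : Function.Surjective f) : (maximalIdeal S).comap f = maximalIdeal R := by
  have hlocal : IsLocalHom f := IsLocalHom.of_surjective f hf
  exact maximalIdeal_comap f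

/-- a regular quotient: the element is not in the square of the maximal ideal -/
theorem notMem_sq {R S : Type} [CommRing R] [CommRing S] [IsRegularLocalRing R]
    [IsRegularLocalRing S] (f : R →+* S) (hf : Function.Surjective f)
    (y : R) (hy : y ∈ nonZeroDivisors R) (hk : ∀ a, f a = 0 → y ∣ a) (hfy : f y = 0) :
    y ∉ maximalIdeal R ^ 2 := by
  intro hy2
  have h1 : ringKrullDim S + 1 ≤ ringKrullDim R := ringKrullDim_succ_le_of_surjective f hf hy hfy
  obtain ⟨t, ht, hts⟩ := Submodule.FG.exists_span_finset_card_eq_spanFinrank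
    (p := maximalIdeal S) (maximalIdeal S).fg_of_isNoetherianRing
  have hcomap := comap_max f hf
  choose g hg using hf
  classical
  set J : Ideal R := Ideal.span ((t.image g : Finset R) : Set R) with hJ
  have hmap : J.map f = maximalIdeal S := by
    rw [hJ, Ideal.map_span, ← hts]
    show Submodule.span S _ = Submodule.span S _
    congr 1
    ext s
    simp only [Finset.coe_image, Set.mem_image, Finset.mem_coe]
    constructor
    · rintro ⟨_, ⟨s', hs', rfl⟩, rfl⟩
      rw [hg]; exact hs'
    · intro hs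
      exact ⟨g s, ⟨s, hs, rfl⟩, hg s⟩
  have hJle : J ≤ maximalIdeal R := by
    rw [← hcomap, ← hmap]
    exact Ideal.le_comap_map
  have hle : maximalIdeal R ≤ J ⊔ maximalIdeal R • maximalIdeal R := by
    intro a ha
    have hfa : f a ∈ J.map f := by
      rw [hmap]
      rw [← hcomap] at ha; exact ha
    rw [Ideal.mem_map_iff_of_surjective f (fun s => ⟨g s, hg s⟩)] at hfa
    obtain ⟨b, hb, hfb⟩ := hfa
    obtain ⟨c, hc⟩ : y ∣ a - b := hk _ (by rw [map_sub, hfb, sub_self])
    have h3 : a = b + y * c := by rw [← hc]; ring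
    rw [h3]
    refine Submodule.add_mem_sup hb ?_
    have : y * c ∈ maximalIdeal R ^ 2 := Ideal.mul_mem_right _ _ hy2
    rw [pow_two] at this
    exact this
  have hJeq : J = maximalIdeal R := by
    apply le_antisymm hJle
    exact Submodule.le_of_le_smul_of_le_jacobson_bot
      (maximalIdeal R).fg_of_isNoetherianRing
      (by rw [IsLocalRing.jacobson_eq_maximalIdeal _ bot_ne_top]) hle
  have h4 := Submodule.spanFinrank_span_le_ncard_of_finite (R := R)
    (s := ((t.image g : Finset R) : Set R)) (Finset.finite_toSet _)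
  have h5 : (maximalIdeal R).spanFinrank ≤ t.card := by
    rw [← hJeq]
    refine le_trans h4 ?_
    rw [Set.ncard_coe_finset]
    exact Finset.card_image_le
  rw [← IsRegularLocalRing.spanFinrank_maximalIdeal (R := R),
    ← IsRegularLocalRing.spanFinrank_maximalIdeal (R := S), ← ht] at h1
  have h6 : t.card + 1 ≤ (maximalIdeal R).spanFinrank := by exact_mod_cast h1
  omega

/-- quotient of a regular local ring by an element outside the square -/
theorem regular_quot {R S : Type} [CommRing R] [CommRing S] [IsRegularLocalRing R]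
    [IsLocalRing S] (f : R →+* S) (hf : Function.Surjective f)
    (y : R) (hy : y ∈ nonZeroDivisors R) (hk : ∀ a, f a = 0 → y ∣ a) (hfy : f y = 0)
    (hy2 : y ∉ maximalIdeal R ^ 2) : IsRegularLocalRing S := by
  have : IsNoetherianRing S := isNoetherianRing_of_surjective R S f hf
  have hcomap := comap_max f hf
  have hym : y ∈ maximalIdeal R := by
    rw [← hcomap]
    show f y ∈ maximalIdeal S
    rw [hfy]; exact Ideal.zero_mem _
  have hker : RingHom.ker f = Ideal.span {y} := by
    ext a
    rw [RingHom.mem_ker, Ideal.mem_span_singleton]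
    refine ⟨hk a, ?_⟩
    rintro ⟨c, rfl⟩
    rw [map_mul, hfy, zero_mul]
  have hdim : ringKrullDim S + 1 = ringKrullDim R := by
    rw [← ringKrullDim_quotient_span_singleton_succ_eq_ringKrullDim_of_mem_nonZeroDivisors hy hym]
    congr 1
    refine (ringKrullDim_eq_of_ringEquiv ?_).symm
    exact (Ideal.quotEquivOfEq hker.symm).trans (RingHom.quotientKerEquivOfSurjective hf)
  apply IsRegularLocalRing.of_spanFinrank_maximalIdeal_le
  obtain ⟨t, ht, hts⟩ := Submodule.FG.exists_span_finset_card_eq_spanFinrank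
    (p := maximalIdeal R) (maximalIdeal R).fg_of_isNoetherianRing
  classical
  have hyt : y ∈ Submodule.span R (t : Set R) := by rw [hts]; exact hym
  obtain ⟨a, -, ha⟩ := Submodule.mem_span_finset.1 hyt
  have hex : ∃ x ∈ t, a x ∉ maximalIdeal R := by
    by_contra hcon
    push Not at hcon
    apply hy2
    rw [← ha, pow_two]
    refine Ideal.sum_mem _ fun x hx => ?_
    exact Ideal.mul_mem_mul (hcon x hx) (by rw [← hts]; exact Submodule.subset_span hx)
  obtain ⟨x0, hx0, hax⟩ := hex
  have hunit : IsUnit (a x0) := by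
    by_contra h
    exact hax ((mem_maximalIdeal _).2 h)
  have hmapmax : (maximalIdeal R).map f = maximalIdeal S := by
    rw [← hcomap]
    exact Ideal.map_comap_of_surjective f hf _
  have hspan : maximalIdeal S = Ideal.span (((t.erase x0).image f : Finset S) : Set S) := by
    apply le_antisymm
    · rw [← hmapmax, ← hts]
      show Ideal.map f (Ideal.span (t : Set R)) ≤ _
      rw [Ideal.map_span, Ideal.span_le]
      rintro _ ⟨x, hx, rfl⟩
      by_cases hxx : x = x0
      · subst hxx
        obtain ⟨b, hb⟩ := hunit.exists_left_inv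
        have h1 : f x = f b * (-(∑ z ∈ t.erase x, f (a z) * f z)) := by
          have h2 : f y = ∑ z ∈ t, f (a z) * f z := by
            rw [← ha, map_sum]
            refine Finset.sum_congr rfl fun z _ => ?_
            rw [smul_eq_mul, map_mul]
          rw [hfy, ← Finset.add_sum_erase _ _ hx0] at h2
          have h3 : f b * f (a x) = 1 := by rw [← map_mul, hb, map_one]
          have h4 : -(∑ z ∈ t.erase x, f (a z) * f z) = f (a x) * f x := by
            rw [neg_eq_iff_add_eq_zero, add_comm]
            exact h2.symm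
          rw [h4, ← mul_assoc, h3, one_mul]
        show f x ∈ Ideal.span _
        rw [h1]
        refine Ideal.mul_mem_left _ _ (neg_mem (Ideal.sum_mem _ fun z hz => ?_))
        refine Ideal.mul_mem_left _ _ (Ideal.subset_span ?_)
        simp only [Finset.coe_image]
        exact ⟨z, Finset.mem_coe.2 hz, rfl⟩
      · refine Ideal.subset_span ?_
        simp only [Finset.coe_image]
        exact ⟨x, Finset.mem_coe.2 (Finset.mem_erase.2 ⟨hxx, hx⟩), rfl⟩
    · rw [Ideal.span_le]
      intro s hs
      obtain ⟨z, hz, rfl⟩ := Finset.mem_image.1 (Finset.mem_coe.1 hs)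
      rw [← hmapmax]
      refine Ideal.mem_map_of_mem f ?_
      rw [← hts]
      exact Submodule.subset_span (Finset.mem_coe.2 (Finset.mem_of_mem_erase hz))
  have h4 := Submodule.spanFinrank_span_le_ncard_of_finite (R := S)
    (s := (((t.erase x0).image f : Finset S) : Set S)) (Finset.finite_toSet _)
  have h5 : (maximalIdeal S).spanFinrank + 1 ≤ (maximalIdeal R).spanFinrank := by
    rw [hspan, ← ht, ← Finset.card_erase_add_one hx0]
    refine Nat.add_le_add_right (le_trans h4 ?_) 1
    rw [Set.ncard_coe_finset]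
    exact Finset.card_image_le
  have h6 : (((maximalIdeal S).spanFinrank + 1 : ℕ) : WithBot ℕ∞) ≤ ringKrullDim S + 1 := by
    rw [hdim, ← IsRegularLocalRing.spanFinrank_maximalIdeal (R := R)]
    exact_mod_cast h5
  generalize ringKrullDim S = d at h6 ⊢
  induction d using WithBot.recBotCoe with
  | bot =>
    rw [WithBot.bot_add] at h6
    exact absurd h6 (by rw [le_bot_iff]; exact WithBot.coe_ne_bot)
  | coe d =>
    induction d using ENat.recTopCoe with
    | top =>
      have h7 : (((maximalIdeal S).spanFinrank : ℕ∞) : WithBot ℕ∞) ≤ ((⊤ : ℕ∞) : WithBot ℕ∞) :=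
        WithBot.coe_le_coe.2 le_top
      exact h7
    | coe n =>
      have h7 : (maximalIdeal S).spanFinrank + 1 ≤ n + 1 := by exact_mod_cast h6
      have h8 : (maximalIdeal S).spanFinrank ≤ n := by omega
      exact_mod_cast h8

/-- the main step: `A → B` is the quotient by `f = π - u`, `K` the quotient of `C` by `u`,
`π ∈ Q²` -/
theorem main_step {C K A B : Type} [CommRing C] [IsDomain C] [CommRing K] [CommRing A]
    [IsDomain A] [CommRing B] [IsRegularRing C] [IsRegularRing A] [IsRegularRing B]
    (u : C) (hu : u ≠ 0) (r : C →+* K) (hr : Function.Surjective r) (hk : ∀ c, r c = 0 ↔ u ∣ c)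
    (i : C →+* A) (ev : A →+* C) (hev : ∀ c, ev (i c) = c) (π : A)
    (hπ : ∀ N : Ideal C, π ∈ (N.comap ev) ^ 2)
    (ρ : A →+* B) (hρ : Function.Surjective ρ) (hρk : ∀ a, ρ a = 0 ↔ (π - i u) ∣ a)
    (hπ0 : ev π = 0) :
    IsRegularRing K := by
  have : IsNoetherianRing K := isNoetherianRing_of_surjective C K r hr
  rw [isRegularRing_iff]
  intro P hP
  -- the prime ideal `N` of `C`
  have hN : (P.comap r).IsPrime := Ideal.comap_isPrime r P
  set N : Ideal C := P.comap r with hNdef
  have huN : u ∈ N := by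
    show r u ∈ P
    rw [(hk u).2 dvd_rfl]; exact P.zero_mem
  have hQ0 : (N.comap ev).IsPrime := Ideal.comap_isPrime ev N
  set Q0 : Ideal A := N.comap ev with hQ0def
  have hgQ : π - i u ∈ Q0 := by
    show ev (π - i u) ∈ N
    rw [map_sub, hπ0, hev, zero_sub]
    exact neg_mem huN
  have hker : RingHom.ker ρ ≤ Q0 := by
    intro d hd
    obtain ⟨c, rfl⟩ := (hρk d).1 hd
    exact Ideal.mul_mem_right _ _ hgQ
  have hQ : (Q0.map ρ).IsPrime := Ideal.map_isPrime_of_surjective hρ hker
  set Q : Ideal B := Q0.map ρ with hQdef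
  have hcomap : Q0 = Q.comap ρ := by
    rw [hQdef, Ideal.comap_map_of_surjective ρ hρ]
    apply le_antisymm
    · exact le_sup_left
    · apply sup_le le_rfl
      intro d hd
      exact hker hd
  obtain ⟨F, hFs, hF0, hFk⟩ := loc_quot ρ hρ (π - i u) hρk Q Q0 hcomap
  have hg0 : π - i u ≠ 0 := by
    intro h
    have h1 : ev (π - i u) = 0 := by rw [h, map_zero]
    rw [map_sub, hπ0, hev, zero_sub, neg_eq_zero] at h1
    exact hu h1
  have hinjA : Function.Injective (algebraMap A (Localization.AtPrime Q0)) :=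
    IsLocalization.injective _ Q0.primeCompl_le_nonZeroDivisors
  have hinjC : Function.Injective (algebraMap C (Localization.AtPrime N)) :=
    IsLocalization.injective _ N.primeCompl_le_nonZeroDivisors
  have h1 : algebraMap A (Localization.AtPrime Q0) (π - i u) ∉
      maximalIdeal (Localization.AtPrime Q0) ^ 2 := by
    refine notMem_sq F hFs _ ?_ hFk hF0
    rw [mem_nonZeroDivisors_iff_ne_zero]
    intro h0
    exact hg0 (hinjA (by rw [h0, map_zero]))
  have h2 : algebraMap C (Localization.AtPrime N) u ∉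
      maximalIdeal (Localization.AtPrime N) ^ 2 := by
    intro h
    apply h1
    rw [← Localization.AtPrime.map_eq_maximalIdeal, ← Ideal.map_pow,
      IsLocalization.mem_map_algebraMap_iff N.primeCompl] at h
    obtain ⟨⟨⟨a, ha⟩, s⟩, hs⟩ := h
    simp only at hs
    rw [← map_mul] at hs
    have hs' : u * s = a := hinjC hs
    rw [← Localization.AtPrime.map_eq_maximalIdeal, ← Ideal.map_pow,
      IsLocalization.mem_map_algebraMap_iff Q0.primeCompl]
    have hiN : ∀ c ∈ N, i c ∈ Q0 := by
      intro c hc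
      show ev (i c) ∈ N
      rw [hev]; exact hc
    have hia : i a ∈ Q0 ^ 2 := by
      have h3 : i a ∈ (N ^ 2).map i := Ideal.mem_map_of_mem i ha
      rw [Ideal.map_pow] at h3
      exact Ideal.pow_right_mono (Ideal.map_le_iff_le_comap.2 hiN) 2 h3
    have hsQ : i s ∈ Q0.primeCompl := by
      show i s ∉ Q0
      intro h3
      have h4 : ev (i s) ∈ N := h3
      rw [hev] at h4
      exact s.2 h4
    refine ⟨⟨⟨i s * π - i a, ?_⟩, ⟨i s, hsQ⟩⟩, ?_⟩
    · exact sub_mem (Ideal.mul_mem_left _ _ (hπ N)) hia
    · simp only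
      rw [← map_mul]
      congr 1
      rw [← hs', map_mul]
      ring
  obtain ⟨G, hGs, hG0, hGk⟩ := loc_quot r hr u hk P N rfl
  refine regular_quot G hGs _ ?_ hGk hG0 h2
  rw [mem_nonZeroDivisors_iff_ne_zero]
  intro h0
  exact hu (hinjC (by rw [h0, map_zero]))

theorem prod_mem (C : Type) [CommRing C] (n : ℕ) (hn : 0 < n) (N : Ideal C) :
    (∏ i, MvPolynomial.X i : MvPolynomial (Fin (n + 1)) C) ∈
      (N.comap (MvPolynomial.constantCoeff : MvPolynomial (Fin (n + 1)) C →+* C)) ^ 2 := by
  obtain ⟨m, rfl⟩ : ∃ m, n = m + 1 := ⟨n - 1, by omega⟩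
  rw [Fin.prod_univ_succ, pow_two]
  refine Ideal.mul_mem_mul ?_ ?_
  · show MvPolynomial.constantCoeff (MvPolynomial.X 0) ∈ N
    rw [MvPolynomial.constantCoeff_X]; exact N.zero_mem
  · show MvPolynomial.constantCoeff (∏ i : Fin (m + 1), MvPolynomial.X i.succ) ∈ N
    rw [map_prod, Fin.prod_univ_succ, MvPolynomial.constantCoeff_X, zero_mul]
    exact N.zero_mem

theorem t_CONV : S_CONV := by
  intro V _ _ u hu n hn hreg
  have hC : IsRegularRing V[X] := Polynomial.isRegularRing_of_isRegularRing V
  have hA : IsRegularRing (MvPolynomial (Fin (n + 1)) V[X]) :=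
    MvPolynomial.isRegularRing_of_isRegularRing V[X]
  refine main_step (C := V[X]) (K := V[X] ⧸ Ideal.span {u})
    (A := MvPolynomial (Fin (n + 1)) V[X]) (B := Semi V[X] u n) u hu.ne_zero
    (Ideal.Quotient.mk _) Ideal.Quotient.mk_surjective ?_ MvPolynomial.C
    MvPolynomial.constantCoeff (fun c => MvPolynomial.constantCoeff_C _ c) (∏ i, MvPolynomial.X i)
    (prod_mem _ n hn) (Ideal.Quotient.mk _) Ideal.Quotient.mk_surjective ?_ ?_
  · intro c
    rw [Ideal.Quotient.eq_zero_iff_mem, Ideal.mem_span_singleton]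
  · intro a
    rw [Ideal.Quotient.eq_zero_iff_mem, Ideal.mem_span_singleton]
  · rw [map_prod, Fin.prod_univ_succ, MvPolynomial.constantCoeff_X, zero_mul]

end Pool.Agent.W983.BQN
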